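import Pool.Agent.Helper52_FRE.PLU
import Pool.Agent.Helper60_FRE.DIL
import Pool.Agent.Helper75_FRE.MOD
import Pool.Agent.Helper5_FRE.BOG
import Pool.Agent.Helper86_FRE.LAT
import Pool.Agent.Helper19_FRE.BPR
import Pool.Agent.Helper32_FRE.PUL
import Pool.Agent.Helper59_FRE.CVR
import Pool.Agent.Helper23_FRE.FRE
import Pool.Agent.Helper82_FRE.CSE
import Pool.Agent.Helper50_FRE.ENR
import Pool.Agent.Helper61_FRE.BSG
import Pool.Agent.Helper61_FRE.Fin
import Pool.Agent.Helper75_PLG.BGR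
import Pool.Agent.Helper94_PLG.POP
import Pool.Agent.Helper92_PLG.BSG

/-!
Squad FRE (MP_1fc801_co): assembly of Freiman's theorem, Balog-Szemeredi-Gowers and the final
theorem from the theorem for generalized progressions (`GplStmt`, squad PLX).
-/

set_option autoImplicit false

namespace Pool.Agent.FRE.Asm

theorem fre : FreStmt :=
  Pool.Agent.FRE.H23.fre Pool.Agent.FRE.H52.plu (Pool.Agent.FRE.H75.mod Pool.Agent.FRE.H60.dil)
    Pool.Agent.FRE.H5.bog (Pool.Agent.FRE.H19.bpr Pool.Agent.FRE.H86.lat) Pool.Agent.FRE.H32.pul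
    (Pool.Agent.FRE.H59.cvr Pool.Agent.FRE.H52.plu)

theorem bsg : BsgStmt :=
  Pool.Agent.FRE.H61.bsg (Pool.Agent.PLG.H92.bsg Pool.Agent.PLG.H75B.bgr Pool.Agent.PLG.H94.pop)

theorem enr (h : GplStmt) : EnrStmt := Pool.Agent.FRE.H50.enr h fre bsg

theorem cse : CseStmt := Pool.Agent.FRE.H82.cse

end Pool.Agent.FRE.Asm
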