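import Mathlib

/-!
Squad FRE (MP_1fc801_co): Freiman's theorem for finite sets of complex numbers and the
Balog-Szemeredi-Gowers theorem, used for the line conjecture of Erdos for sets with large additive
energy.  Every row is a self-contained statement with a complete proof in its docstring.
Rules: only the results named in `uses` are hypotheses of the row's theorem (in this order).
-/

set_option autoImplicit false

namespace Pool.Agent.FRE

/-- `x` lies in the box with the half sides `L` -/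
def Box {d : ℕ} (L : Fin d → ℕ) (x : Fin d → ℤ) : Prop := ∀ i, |x i| ≤ (L i : ℤ)

/-- the sums `∑ x i • g i`, `x` in the box `L`, are different -/
def Proper {G : Type} [AddCommGroup G] {d : ℕ} (g : Fin d → G) (L : Fin d → ℕ) : Prop :=
  ∀ x y : Fin d → ℤ, Box L x → Box L y → ∑ i, x i • g i = ∑ i, y i • g i → x = y

open Classical in
/-- the number of the different sums of two elements of `A` -/
noncomputable def sms (A : Finset ℂ) : ℕ := ((A ×ˢ A).image fun p => p.1 + p.2).card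

open Classical in
/-- the additive energy of `A`: the number of the quadruples with `a + b = c + d` -/
noncomputable def eng (A : Finset ℂ) : ℕ :=
  (((A ×ˢ A) ×ˢ (A ×ˢ A)).filter fun q => q.1.1 + q.1.2 = q.2.1 + q.2.2).card

/-- `g` is a Freiman isomorphism of order eight on `A` -/
def Iso8 {N : ℕ} (A : Finset ℂ) (g : ℂ → ZMod N) : Prop :=
  ∀ x y : Fin 8 → ℂ, (∀ i, x i ∈ A) → (∀ i, y i ∈ A) →
    ((∑ i, g (x i) = ∑ i, g (y i)) ↔ ∑ i, x i = ∑ i, y i)

open Classical in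
/-- the number of the distinct distances of `P` -/
noncomputable def nd (P : Finset ℂ) : ℕ := (P.offDiag.image fun p => dist p.1 p.2).card

/-- ROW PLU (easy-medium, uses nothing).  Pluennecke's inequality from Mathlib in the form used here.
PROOF.  `Finset.pluennecke_ruzsa_inequality_nsmul_sub_nsmul_add` with `A = B`:
`#(m • A - n • A) ≤ (#(A + A) / #A) ^ (m + n) * #A` (in `ℚ≥0`), and `sms A` is the cardinality of
`A + A` (`Finset.image_add_product` or `rfl`-like).  Take `S = m • A - n • A` (the repeated sumset, not the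
dilate: use the instance `Finset.nsmul`, or state `S` through the term of the Mathlib theorem); a sum of `m`
elements of `A` lies in `m • A` (`Finset.sum_mem_nsmul`-type lemma or induction on `m` with
`succ_nsmul`, `Finset.add_mem_add`). -/
def PluStmt : Prop :=
  ∀ (A : Finset ℂ) (K : ℝ) (m n : ℕ), A.Nonempty → (sms A : ℝ) ≤ K * A.card →
    ∃ S : Finset ℂ, (S.card : ℝ) ≤ K ^ (m + n) * A.card ∧
      ∀ (x : Fin m → ℂ) (y : Fin n → ℂ), (∀ i, x i ∈ A) → (∀ i, y i ∈ A) →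
        ∑ i, x i - ∑ i, y i ∈ S

/-- ROW DIL (medium, uses nothing).  An additive map to the reals which keeps the elements of a finite set away
from the integers.
PROOF.  Let `S' = S \ {0}`.  There is a `ℚ`-linear `l : ℂ → ℚ` with `l z ≠ 0` for all `z ∈ S'`: take a basis
of `ℂ` over `ℚ` (`Module.Basis.ofVectorSpace`), the finite set `I` of the basis indices in the supports of the
elements of `S'`, numbered `i_1, ..., i_r`; for a natural number `t` let `l_t z = ∑_k (coordinate i_k of z) t^k`; for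
every `z ∈ S'` this is a nonzero polynomial in `t`, so all but finitely many `t` work.  (Or: a vector space over an
infinite field is not a finite union of proper subspaces, applied to the dual of the span of `S'`, and extend by
`LinearMap.exists_extend`.)  Multiply `l` by a common denominator: `l z = a_z` is a nonzero integer for every
`z ∈ S'`.  Let `p` be a prime with `p > |a_z|` for all `z ∈ S'` and `p > |S| N`.  For `k ∈ {0, ..., p-1}` let
`θ_k = (k/p) l`.  Call `k` bad for `z` if some integer `m` has `N |k a_z / p - m| < 1`, i.e.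
`|k a_z - m p| < p / N`: as `k ↦ k a_z mod p` is a bijection and the number of the integers `u` with
`|u| < p/N` is at most `2 p / N + 1`, at most `2 p / N + 1` of the `k` are bad for `z`.  All together at most
`|S| (2p/N + 1) ≤ p (N-1)/N + |S| < p` (`2|S| ≤ N - 1`, `|S| < p/N`) are bad for some `z ∈ S'`.  Take `θ = θ_k`
with `k` not bad. -/
def DilStmt : Prop :=
  ∀ (S : Finset ℂ) (N : ℕ), 2 * S.card < N →
    ∃ θ : ℂ →+ ℝ, ∀ z ∈ S, z ≠ 0 → ∀ m : ℤ, 1 ≤ (N : ℝ) * |θ z - m|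

/-- ROW MOD (medium, uses DIL).  Ruzsa's model lemma.
PROOF.  `θ` from DIL (for `S`, `N`), `g z = ⌊N θ z⌋` (cast to `ZMod N`).  For `i = 0, ..., 7` let `A_i` be the set
of the `z ∈ A` with `i/8 ≤ fract (N θ z) < (i+1)/8`; these are a partition of `A`, so `8 |A_i| ≥ |A|` for some
`i`; `A' = A_i`.  Let `x, y` be 8-tuples of `A'`; `F = ∑ ⌊N θ x_j⌋ - ∑ ⌊N θ y_j⌋`, `z = ∑ x_j - ∑ y_j ∈ S`.
The sum of the eight fractional parts of the `N θ x_j` lies in `[i, i+1)`, the same for `y`, so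
`|N θ z - F| < 1`.  If `z = 0`: `|F| < 1`, `F = 0`.  If `F = 0` in `ZMod N`: `F = N m`, so
`N |θ z - m| < 1`, so `z = 0` by the choice of `θ`. -/
def ModStmt : Prop :=
  ∀ (A S : Finset ℂ) (N : ℕ), 2 * S.card < N →
    (∀ x y : Fin 8 → ℂ, (∀ i, x i ∈ A) → (∀ i, y i ∈ A) → ∑ i, x i - ∑ i, y i ∈ S) →
    ∃ (A' : Finset ℂ) (g : ℂ → ZMod N), A' ⊆ A ∧ A.card ≤ 8 * A'.card ∧ Iso8 A' g

/-- ROW BOG (medium-strong, uses nothing).  Bogolyubov's lemma.
PROOF.  Let `β = |B|/N ≥ α`.  `S r = ∑_(b ∈ B) e(r b)`, `e = ZMod.stdAddChar` (so `e u = exp (2 π i u / N)`,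
orthogonality `∑_r e(r u) = N` if `u = 0`, `0` otherwise: `AddChar.sum_mulShift` or
`ZMod.isPrimitive_stdAddChar`).  Parseval: `∑_r |S r|² = N |B|`.  For every `x`:
`N #{(a,b,c,d) ∈ B⁴ : a + b - c - d = x} = ∑_r |S r|⁴ e(-r x) = ∑_r |S r|⁴ cos (2 π (r x)/N)` (real part).
Let `R = {r : |S r|² ≥ β³ N² / 2}`; Parseval: `|R| β³ N² / 2 ≤ N |B| = β N²`, so `|R| ≤ 2/β² ≤ 2/α²`.
Let `x` be as in the statement.  For `r ∈ R`: `2 π |valMinAbs (r x)| / N < π/2`, so the cosine is `≥ 0`; the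
term `r = 0` (which lies in `R` because `β² N² ≥ β³ N²/2`) is `|B|⁴`; the terms `r ∉ R` contribute at least
`- ∑_(r ∉ R) |S r|⁴ ≥ - (β³ N²/2) N |B| = - |B|⁴ / 2`.  So the sum is positive and some quadruple exists. -/
def BogStmt : Prop :=
  ∀ (N : ℕ) [NeZero N] (B : Finset (ZMod N)) (α : ℝ), 0 < α → α * N ≤ B.card →
    ∃ R : Finset (ZMod N), (R.card : ℝ) ≤ 2 / α ^ 2 ∧
      ∀ x : ZMod N, (∀ r ∈ R, 4 * |(r * x).valMinAbs| < N) →
        ∃ a ∈ B, ∃ b ∈ B, ∃ c ∈ B, ∃ e ∈ B, x = a + b - c - e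

/-- ROW LAT (medium-strong, uses nothing).  A ball of a discrete group contains a large proper progression.
PROOF.  Induction on `D`; `D = 0`: `E = 0`, the ball has one element, `c = 1`.  Step `D - 1 → D`, constant `c'`.
If `E = 0`, or `Λ` has no nonzero element, or the shortest nonzero vector `v` of `Λ` (it exists, balls are finite)
has `t = ‖v‖ > r`: the ball has one element, take `g = 0`, `L = 0` (`c ≤ 1`).  Let `t ≤ r`.  Every element of
`Λ` on the line `ℝ v` is an integer multiple of `v` (otherwise subtract the nearest multiple: a nonzero vector of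
norm `≤ t/2`).  `E' = E / ℝ v` with the quotient norm (`Submodule.Quotient`, `ℝ v` is closed; dimension at most
`D - 1`), `Λ'` the image of `Λ`.  LIFT: every `x' ∈ Λ'` is the image of some `x ∈ Λ` with
`‖x‖ ≤ ‖x'‖ + 3t/4`: some preimage in `E` has norm `< ‖x'‖ + t/4`, it differs from a preimage in `Λ` by `s v`,
round `s` to the nearest integer.  So the balls of `Λ'` are finite.  If moreover `x' ≠ 0` then `t ≤ ‖x‖`, so
`‖x‖ ≤ ‖x'‖ + (3/4)‖x‖`, `‖x‖ ≤ 4 ‖x'‖`.  COUNT: two elements of `Λ ∩ B_r` with the same image differ by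
`m v`, `|m| t ≤ 2r`; so `#(Λ ∩ B_r) ≤ (1 + 4r/t) #(Λ' ∩ B'_r) ≤ (5r/t) #(Λ' ∩ B'_r)`.
Let `g'_i, L'_i` (`i < D-1`) be from the induction hypothesis for `Λ'`, `r`.  If `L'_i ≥ 1` then `g'_i ≠ 0`
(different sums) and `L'_i ‖g'_i‖ ≤ r`; let `g_i ∈ Λ` be a lift with `‖g_i‖ ≤ 4 ‖g'_i‖ ≤ 4 r / L'_i`.  If
`L'_i = 0` let `g_i` be any lift.  `L_i = ⌊L'_i / (8 D)⌋`, so `L_i ‖g_i‖ ≤ r/(2D)`; the last step is `v` with
`L = ⌊r/(2t)⌋`.  Every sum has norm `≤ (D-1) r/(2D) + r/2 ≤ r`.  Different: equal sums are equal in `E'`, so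
the first coordinates agree (`L_i ≤ L'_i`), then the last one since `v ≠ 0`.  Size: `2 ⌊y⌋ + 1 ≥ (2y+1)/3` for
`y ≥ 0`, so `2 L_i + 1 ≥ (2 L'_i + 1)/(24 D)` and `2 ⌊r/(2t)⌋ + 1 ≥ r/(3t)`:
`∏ (2 L_i + 1) ≥ (24 D)^(-(D-1)) (r/(3t)) c' #(Λ' ∩ B'_r) ≥ c #(Λ ∩ B_r)` with
`c = c' / (15 (24 D)^(D-1))`. -/
def LatStmt : Prop :=
  ∀ D : ℕ, ∃ c : ℝ, 0 < c ∧ ∀ (E : Type) [NormedAddCommGroup E] [NormedSpace ℝ E]
    [FiniteDimensional ℝ E] (Λ : AddSubgroup E) (r : ℝ), Module.finrank ℝ E ≤ D → 0 ≤ r →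
    (∀ ρ : ℝ, {x : E | x ∈ Λ ∧ ‖x‖ ≤ ρ}.Finite) →
    ∃ (g : Fin D → E) (L : Fin D → ℕ), (∀ i, g i ∈ Λ) ∧ Proper g L ∧
      (∀ x, Box L x → ‖∑ i, x i • g i‖ ≤ r) ∧
      c * ({x : E | x ∈ Λ ∧ ‖x‖ ≤ r}.ncard : ℝ) ≤ ∏ i, (2 * (L i : ℝ) + 1)

/-- ROW BPR (medium, uses LAT).  A Bohr set of `ZMod N` contains a large proper progression.
PROOF.  We may replace `m` by `m + 1`, so `m ≥ 1`.  `γ : Fin (D+1) → ZMod N` with `γ 0 = 1` whose other values
contain `R` (pad with `0`).  `E = Fin (D+1) → ℝ` (sup norm), `Λ` = the vectors `z` with integer coordinates and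
`z_k = γ_k z_0` in `ZMod N` for all `k` (a subgroup with finite balls).  `r = N/(4m)`.  PIGEONHOLE: for
`x ∈ ZMod N` let `Z x = (valMinAbs (γ_k x))_k ∈ Λ`, a point of the cube `[-N/2, N/2]^(D+1)`; cover
`[-N/2, N/2]` by `4m + 1` half open intervals of length `N/(4m)` (`⌊4 m z / N⌋` takes at most `4m + 1` values), so
at least `N/(4m+1)^(D+1)` of the `N` points lie in one cube of side `N/(4m)`; their differences with one of them are
in `Λ ∩ B_r` and different (the coordinate `0` determines `x` since `γ 0 = 1`).  So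
`#(Λ ∩ B_r) ≥ N/(4m+1)^(D+1)`.  LAT (dimension `D+1`) gives `G_i ∈ Λ`, `L_i`; `q_i = (G_i)_0` in `ZMod N` (the
coordinate is an integer).  For `x` in the box let `w = ∑ x_i G_i ∈ Λ`, `‖w‖ ≤ r`, `u = ∑ x_i q_i = w_0` in
`ZMod N`; `w_k` is an integer representing `γ_k u`, so `|valMinAbs (γ_k u)| ≤ |w_k| ≤ N/(4m)`
(`ZMod.valMinAbs` is the representative of the smallest absolute value: `ZMod.natAbs_valMinAbs_le` or similar),
and `m |valMinAbs| ≤ N/4 < N`.  Different: if `u = u'` then `w_k = w'_k` in `ZMod N` for all `k` and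
`|w_k - w'_k| ≤ 2r < N`, so `w = w'`, so `x = x'`. -/
def BprStmt : Prop :=
  ∀ D m : ℕ, ∃ c : ℝ, 0 < c ∧ ∀ (N : ℕ) [NeZero N] (R : Finset (ZMod N)), R.card ≤ D →
    ∃ (q : Fin (D + 1) → ZMod N) (L : Fin (D + 1) → ℕ), Proper q L ∧
      (∀ x, Box L x → ∀ r ∈ R, (m : ℤ) * |(r * ∑ i, x i • q i).valMinAbs| < N) ∧
      c * N ≤ ∏ i, (2 * (L i : ℝ) + 1)

/-- ROW PUL (medium, uses nothing).  Pulling a proper progression back by a Freiman isomorphism.
PROOF.  We may assume that `A` is not empty (the point `x = 0` gives an element of `A`); fix `a₀ ∈ A`.  By padding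
with `a₀` the equivalence `∑ g x_i = ∑ g y_i ↔ ∑ x_i = ∑ y_i` holds for tuples of any length `k ≤ 8` (lengths 4 and 6
are needed).  For `u` of the form `g a + g b - g c - g e` (call it representable) let `F u = a + b - c - e`: well
defined and injective by the case `k = 4` (`g a + g b + g c' + g e' = g a' + g b' + g c + g e` iff
`a + b + c' + e' = a' + b' + c + e`), `F 0 = 0`, and `F (u + v) = F u + F v` if `u`, `v`, `u + v` are
representable (`k = 6`).  For `x` in the box `u_x = ∑ x_i • q i` is representable.  Let `G i = F (q i)` if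
`1 ≤ L i` (then `q i = u_(e_i)` is representable), `G i = 0` otherwise.  Claim `F (u_x) = ∑ x_i • G i` for `x` in the
box, by induction on `∑ |x_i|`: if `x_i > 0` then `u_x = u_(x - e_i) + q i`; if `x_i < 0` then
`u_(x + e_i) = u_x + q i`; the other vectors are in the box.  So the sums are of the form `a + b - c - e`, and they
are different because `F` is injective and the `u_x` are different. -/
def PulStmt : Prop :=
  ∀ (N d : ℕ) (A : Finset ℂ) (g : ℂ → ZMod N) (q : Fin d → ZMod N) (L : Fin d → ℕ),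
    Iso8 A g → Proper q L →
    (∀ x, Box L x → ∃ a ∈ A, ∃ b ∈ A, ∃ c ∈ A, ∃ e ∈ A,
      ∑ i, x i • q i = g a + g b - g c - g e) →
    ∃ G : Fin d → ℂ, Proper G L ∧
      ∀ x, Box L x → ∃ a ∈ A, ∃ b ∈ A, ∃ c ∈ A, ∃ e ∈ A, ∑ i, x i • G i = a + b - c - e

/-- ROW CVR (medium, uses PLU).  Ruzsa covering.
PROOF.  Let `Q` be the finset of the sums `∑ x_i • G i`, `x` in the box (image of
`Fintype.piFinset fun i => Finset.Icc (-L i) (L i)`); by `Proper` `|Q| = ∏ (2 L_i + 1)`.  `A + Q` is contained in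
the set `S` of PLU for `m = 3, n = 2`: `|A + Q| ≤ K^5 |A| ≤ (K^5/c) |Q|`; `Q` is contained in the set of PLU for
`m = n = 2`: `|Q| ≤ K^4 |A|`.  Ruzsa covering (`Finset.ruzsa_covering_add`): `X ⊆ A` with
`|X| ≤ K^5/c` and `A ⊆ X + (Q - Q)`.  Let `M = ⌊K^5/c⌋₊`, `d = M + D`; the steps are the elements of `X` (numbered
by `Fin M`, padded with `0`) with the sides `1`, and the `G i` with the sides `2 L_i`.  An element
`z = X_k + ∑ (x_i - y_i) • G i` has the coordinates `e_k` and `x - y`.  Size: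
`3^M ∏ (4 L_i + 1) ≤ 3^M 2^D ∏ (2 L_i + 1) = 3^M 2^D |Q| ≤ 3^M 2^D K^4 |A|`. -/
def CvrStmt : Prop :=
  ∀ (K c : ℝ) (D : ℕ), 0 < K → 0 < c → ∃ (d : ℕ) (C : ℝ), 0 < C ∧
    ∀ (A : Finset ℂ) (G : Fin D → ℂ) (L : Fin D → ℕ), A.Nonempty →
    (sms A : ℝ) ≤ K * A.card → Proper G L →
    (∀ x, Box L x → ∃ a ∈ A, ∃ b ∈ A, ∃ c ∈ A, ∃ e ∈ A, ∑ i, x i • G i = a + b - c - e) →
    c * A.card ≤ ∏ i, (2 * (L i : ℝ) + 1) →
    ∃ (g : Fin d → ℂ) (N : Fin d → ℕ),
      (∀ z ∈ A, ∃ x : Fin d → ℤ, Box N x ∧ z = ∑ i, x i • g i) ∧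
      ∏ i, (2 * (N i : ℝ) + 1) ≤ C * A.card

/-- ROW FRE (medium, uses PLU MOD BOG BPR PUL CVR).  Freiman's theorem for finite sets of complex numbers.
PROOF.  `|A| ≤ sms A`, so `K ≥ 1` if some `A` satisfies the hypothesis.  PLU (`m = n = 8`): `S` with
`|S| ≤ K^16 |A|`; `N = 2|S| + 1 ≤ 3 K^16 |A|` (and `|A| ≤ |S|` because the map
`a ↦ a + 7 a₀ - 8 a₀` sends `A` into `S`, so `|A| ≤ N`).  MOD: `A' ⊆ A`, `|A| ≤ 8 |A'|`, `g`.
`B = g(A')`, `|B| = |A'|` (`g` is injective on `A'`: constant 8-tuples padded by a fixed element), so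
`|B| ≥ |A|/8 ≥ α N`, `α = 1/(24 K^16)`.  BOG: `R`, `|R| ≤ D = ⌊2/α²⌋₊`.  BPR with `m = 4`: a proper progression
`q`, `L` of dimension `D + 1` all of whose elements are of the form `g a + g b - g c - g e`, `a, b, c, e ∈ A'`, and
`∏ (2 L_i + 1) ≥ c N ≥ c |A|`.  PUL: a proper progression `G`, `L` in `A' + A' - A' - A'`.  CVR (constants
`K`, `c`, `D + 1`, all depend only on `K`). -/
def FreStmt : Prop :=
  ∀ K : ℝ, ∃ (d : ℕ) (C : ℝ), 0 < C ∧ ∀ A : Finset ℂ, A.Nonempty →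
    (sms A : ℝ) ≤ K * A.card →
    ∃ (g : Fin d → ℂ) (N : Fin d → ℕ),
      (∀ z ∈ A, ∃ x : Fin d → ℤ, Box N x ∧ z = ∑ i, x i • g i) ∧
      ∏ i, (2 * (N i : ℝ) + 1) ≤ C * A.card

open Classical in
/-- ROW POP (easy-medium, uses nothing).  Popular sums.
PROOF.  For `s` let `ρ s` be the number of the pairs `(a, b) ∈ P × P` with `a + b = s`; `∑ ρ s = |P|²`,
`eng P = ∑ ρ s ²`, `ρ s ≤ |P|`.  `S` = the sums `s` with `2 K ρ s ≥ |P|`.  `|S| |P| ≤ 2K ∑ ρ = 2 K |P|²`, so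
`|S| ≤ 2 K |P|` (if `P` is empty, `S` is empty).  The `s ∉ S` contribute at most
`(|P|/(2K)) |P|² ≤ eng P / 2` to `eng P`, so `|P| ∑_S ρ s ≥ ∑_S ρ s ² ≥ eng P / 2 ≥ |P|³/(2K)`, and
`∑_S ρ s` is the number of the pairs with `a + b ∈ S`. -/
def PopStmt : Prop :=
  ∀ (P : Finset ℂ) (K : ℝ), 0 < K → (P.card : ℝ) ^ 3 ≤ K * eng P →
    ∃ S : Finset ℂ, (S.card : ℝ) ≤ 2 * K * P.card ∧
      (P.card : ℝ) * P.card ≤ 2 * K * ((P ×ˢ P).filter fun p => p.1 + p.2 ∈ S).card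

open Classical in
/-- ROW GP2 (easy-medium, uses nothing).  Paths of length two in a dense bipartite graph.
PROOF.  `δ = ε/(2K²)`; for `b ∈ B` let `A_b = {a ∈ A : G a b}`, `∑_b |A_b| ≥ |A||B|/K`, so
`∑_b |A_b|² ≥ |A|²|B|/K²` (Cauchy).  A pair `(a, a')` is bad if it has fewer than `δ|B|` common neighbours; let
`bad_b` be the number of the bad pairs of `A_b × A_b`: `∑_b bad_b ≤ δ |B| |A|²` (double counting).  So
`∑_b (|A_b|² - bad_b / ε) ≥ |A|²|B|/(2K²)` and some `b` has `|A_b|² - bad_b/ε ≥ |A|²/(2K²) ≥ 0`: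
`|A| ≤ √2 K |A_b| ≤ 2K |A_b|` and `bad_b ≤ ε |A_b|²`. -/
def Gp2Stmt : Prop :=
  ∀ (A B : Finset ℂ) (G : ℂ → ℂ → Prop) (K ε : ℝ), 0 < K → 0 < ε → A.Nonempty → B.Nonempty →
    (A.card : ℝ) * B.card ≤ K * ((A ×ˢ B).filter fun p => G p.1 p.2).card →
    ∃ A' ⊆ A, (A.card : ℝ) ≤ 2 * K * A'.card ∧
      (((A' ×ˢ A').filter fun p =>
        ((B.filter fun b => G p.1 b ∧ G p.2 b).card : ℝ) < ε / (2 * K ^ 2) * B.card).card : ℝ) ≤
        ε * (A'.card : ℝ) ^ 2

open Classical in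
/-- ROW PA4 (medium, uses nothing).  From paths of length two to few differences.
PROOF.  A pair `(a, a')` of `A'` is bad if fewer than `δ |P|` elements `b ∈ P` have `a + b ∈ S` and
`a' + b ∈ S` (symmetric in `a, a'`); at most `|A'|²/8` pairs are bad.  `A''` = the `a ∈ A'` for which at most
`|A'|/4` elements `a'` make `(a, a')` bad; `|A' \ A''| |A'|/4 ≤ |A'|²/8`, so `|A''| ≥ |A'|/2`.  For
`a, e ∈ A''` at least `|A'|/2` elements `a' ∈ A'` have `(a, a')` and `(a', e)` not bad; for each of them there are at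
least `(δ|P|)²` pairs `(b, b') ∈ P²` with `a + b, a' + b, a' + b', e + b' ∈ S`.  The map
`(a', b, b') ↦ (a + b, a' + b, a' + b', e + b')` is injective (`a, e` fixed) with values in the quadruples
`(p, q, r, s) ∈ S⁴` with `p - q + r - s = a - e`.  So every difference of two elements of `A''` comes from at least
`(|A'|/2) (δ|P|)²` quadruples of `S⁴`; different differences from disjoint sets of quadruples. -/
def Pa4Stmt : Prop :=
  ∀ (P S A' : Finset ℂ) (δ : ℝ), 0 < δ →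
    (((A' ×ˢ A').filter fun p =>
      ((P.filter fun b => p.1 + b ∈ S ∧ p.2 + b ∈ S).card : ℝ) < δ * P.card).card : ℝ) ≤
      1 / 8 * (A'.card : ℝ) ^ 2 →
    ∃ A'' ⊆ A', A'.card ≤ 2 * A''.card ∧
      (((A'' ×ˢ A'').image fun p => p.1 - p.2).card : ℝ) *
        ((A'.card : ℝ) / 2 * (δ * P.card) ^ 2) ≤ (S.card : ℝ) ^ 4

/-- ROW BSG (medium, uses POP GP2 PA4).  The Balog-Szemeredi-Gowers theorem.
PROOF.  POP: `S`, and the graph `G a b ↔ a + b ∈ S` on `P × P` with the density at least `1/(2K)`.  GP2 with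
`A = B = P`, `2K` instead of `K`, `ε = 1/8`: `A' ⊆ P`, `|P| ≤ 4K |A'|`, `δ = (1/8)/(2 (2K)²) = 1/(64 K²)`.  PA4:
`A'' ⊆ A'`, `|A'| ≤ 2|A''|`, `#(A'' - A'') (|A'|/2) δ² |P|² ≤ |S|⁴ ≤ (2K)⁴ |P|⁴`.  So
`#(A'' - A'') ≤ 32 K⁴ |P|² / (δ² |A'|) ≤ 32 K⁴ (4096 K⁴) (4K |P|) ≤ C K⁹ |P| ≤ C K^10 |A''|` (`|P| ≤ 8K |A''|`).
`P' = A''`; Pluennecke (`Finset.pluennecke_ruzsa_inequality_nsmul_sub_nsmul_sub` with `A = B = P'`, `m = 2`,
`n = 0`; or `Finset.card_add_mul_card_le_card_sub_mul_card_sub`-type Ruzsa inequalities: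
`#(P'+P') #P' ≤ #(P'-P')²`) gives `sms P' ≤ (C K^10)² |P'|`. -/
def BsgStmt : Prop :=
  ∀ K : ℝ, ∃ K' : ℝ, 0 < K' ∧ ∀ P : Finset ℂ, P.Nonempty → (P.card : ℝ) ^ 3 ≤ K * eng P →
    ∃ P' ⊆ P, (P.card : ℝ) ≤ K' * P'.card ∧ (sms P' : ℝ) ≤ K' * P'.card

/-- ROW CSE (easy, uses nothing).  Small doubling implies large energy.
PROOF.  With `ρ s` = the number of the pairs `(a, b) ∈ P × P` with `a + b = s`: `∑ ρ s = |P|²`, the sum has
`sms P` terms, `eng P = ∑ ρ s ²`; Cauchy: `|P|⁴ ≤ sms P * eng P ≤ K |P| eng P`; divide by `|P|` (if `P` is empty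
both sides are `0`). -/
def CseStmt : Prop :=
  ∀ (P : Finset ℂ) (K : ℝ), (sms P : ℝ) ≤ K * P.card → (P.card : ℝ) ^ 3 ≤ K * eng P

/-- the theorem of squad PLX (helper53): subsets of positive density of arbitrary generalized progressions -/
def GplStmt : Prop :=
  ∀ (d : ℕ) (K : ℝ), 0 < K → ∃ ε c A : ℝ, 0 < ε ∧ 0 < c ∧ 0 < A ∧ ∃ n₀ : ℕ,
    ∀ (g : Fin d → ℂ) (N : Fin d → ℕ) (P : Finset ℂ),
    (∀ z ∈ P, ∃ x : Fin d → ℤ, (∀ i, |x i| ≤ (N i : ℤ)) ∧ z = ∑ i, (x i : ℂ) * g i) →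
    n₀ ≤ P.card → ∏ i, (2 * (N i : ℝ) + 1) ≤ K * P.card → (nd P : ℝ) ≤ ε * P.card →
    ∃ z₀ e : ℂ, e ≠ 0 ∧ c * Real.sqrt P.card ≤ Real.log P.card ^ A *
      ((open Classical in (P.filter fun p => ∃ t : ℝ, p = z₀ + t * e).card : ℕ) : ℝ)

/-- ROW ENR (easy-medium, uses GPL FRE BSG).  The final theorem: sets with large additive energy.
PROOF.  `K' ` from BSG (we may assume `K' ≥ 1`), `d, C` from FRE for `K'`, `ε₁, c₁, A₁, n₁` from GPL for `d`, `C`.
`n₀ ≥ K' n₁` and `n₀ ≥ 3`, `ε = ε₁/K'`, `A = A₁`.  Let `P'` be from BSG; `|P'| ≥ |P|/K' ≥ n₁`, so `P'` is not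
empty; FRE applies to `P'`; `nd P' ≤ nd P ≤ ε |P| ≤ ε₁ |P'|`.  GPL: a line with at least
`c₁ √|P'| / (log |P'|)^A` points of `P' ⊆ P`; `|P'| ≥ |P|/K'`, `log |P'| ≤ log |P|` (both positive for large `n₀`;
`Real.rpow_le_rpow`), `c = c₁/√K'`. -/
def EnrStmt : Prop :=
  ∀ K : ℝ, ∃ ε c A : ℝ, 0 < ε ∧ 0 < c ∧ 0 < A ∧ ∃ n₀ : ℕ, ∀ P : Finset ℂ, n₀ ≤ P.card →
    (P.card : ℝ) ^ 3 ≤ K * eng P → (nd P : ℝ) ≤ ε * P.card →
    ∃ z₀ e : ℂ, e ≠ 0 ∧ c * Real.sqrt P.card ≤ Real.log P.card ^ A *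
      ((open Classical in (P.filter fun p => ∃ t : ℝ, p = z₀ + t * e).card : ℕ) : ℝ)

end Pool.Agent.FRE
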